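import Pool.Agent.Lib.MP_648c71_nt.AB.Lq

/-!
# Two exceptional generators: reflections, periods, contradiction
-/

set_option autoImplicit false

namespace Pool.Agent.Lib.MP_648c71_nt.AB

open Pool.Agent.Lib.MP_648c71_nt

variable {K : Type} [Field K] [Algebra ℚ K]

/-- The property holds for all rational numbers of large absolute value and bounded denominator. -/
def Ev (P : ℚ → Prop) : Prop :=
  ∀ Q : ℕ, 0 < Q → ∃ R : ℚ, ∀ s : ℚ, s.den ∣ Q → R ≤ |s| → P s

theorem norm_cast' (hK : Module.finrank ℚ K = 3) (x : ℚ) :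
    Algebra.norm ℚ (algebraMap ℚ K x) = x ^ 3 := by
  rw [Algebra.norm_algebraMap, hK]

theorem L_sq (hK : Module.finrank ℚ K = 3) {p : K} (hp : p ∉ Set.range (algebraMap ℚ K)) (s : ℚ) :
    L p s * L p s = 1 := by
  have : Module.Finite ℚ K := Module.finite_of_finrank_pos (by rw [hK]; norm_num)
  apply lq_sq
  rw [Ne, Algebra.norm_eq_zero_iff, sub_eq_zero]
  intro h
  exact hp ⟨s, h⟩

/-- The composition identity. -/
theorem ident (hK : Module.finrank ℚ K = 3) {p q : K} {x0 c2 x : ℚ} (hx : x ≠ 0)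
    (h : p ^ 2 = algebraMap ℚ K x0 + algebraMap ℚ K c2 * p + algebraMap ℚ K x * q) (s : ℚ) :
    L p s * L p (c2 - s) = lq x * L q ((s * (s - c2) - x0) / x) := by
  unfold L
  rw [← lq_mul, ← map_mul]
  have h1 : (algebraMap ℚ K s - p) * (algebraMap ℚ K (c2 - s) - p) =
      algebraMap ℚ K (-x) * (algebraMap ℚ K ((s * (s - c2) - x0) / x) - q) := by
    have h2 : algebraMap ℚ K x * algebraMap ℚ K ((s * (s - c2) - x0) / x) =
        algebraMap ℚ K (s * (s - c2) - x0) := by
      rw [← map_mul]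
      congr 1
      field_simp
    have h3 : algebraMap ℚ K (-x) * (algebraMap ℚ K ((s * (s - c2) - x0) / x) - q) =
        -(algebraMap ℚ K x * algebraMap ℚ K ((s * (s - c2) - x0) / x)) + algebraMap ℚ K x * q := by
      rw [map_neg]
      ring
    rw [h3, h2]
    simp only [map_sub, map_mul]
    linear_combination h
  rw [h1, map_mul, lq_mul, norm_cast' hK, lq_pow_three _ (neg_ne_zero.2 hx), lq_neg]

theorem den_sub (a b : ℚ) : (a - b).den ∣ a.den * b.den := by
  have h := Rat.add_den_dvd a (-b)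
  rw [Rat.den_neg_eq_den, ← sub_eq_add_neg] at h
  exact h

/-- the denominator of the quadratic polynomial -/
theorem den_quad {Q : ℕ} (x0 c2 x s : ℚ) (hs : s.den ∣ Q) :
    ((s * (s - c2) - x0) / x).den ∣ (Q * (Q * c2.den)) * x0.den * (x⁻¹).den := by
  rw [div_eq_mul_inv]
  refine (Rat.mul_den_dvd _ _).trans (Nat.mul_dvd_mul ?_ dvd_rfl)
  refine (den_sub _ _).trans (Nat.mul_dvd_mul ?_ dvd_rfl)
  refine (Rat.mul_den_dvd _ _).trans (Nat.mul_dvd_mul hs ?_)
  exact (den_sub _ _).trans (Nat.mul_dvd_mul hs dvd_rfl)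

theorem den_pos' {Q : ℕ} (hQ : 0 < Q) (x0 c2 x : ℚ) :
    0 < (Q * (Q * c2.den)) * x0.den * (x⁻¹).den := by
  have h1 := c2.den_pos
  have h2 := x0.den_pos
  have h3 := (x⁻¹).den_pos
  positivity

/-- Reflection law. -/
theorem refl (hK : Module.finrank ℚ K = 3) {p q : K} {x0 c2 x : ℚ} (hx : 0 < x)
    (h : p ^ 2 = algebraMap ℚ K x0 + algebraMap ℚ K c2 * p + algebraMap ℚ K x * q) {k : ℤ}
    (hq : Bad q k) : Ev (fun s => L p s * L p (c2 - s) = lq x * k) := by
  intro Q hQ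
  obtain ⟨R, hR⟩ := hq _ (den_pos' hQ x0 c2 x)
  refine ⟨|c2| + |x0| + |R| * x + 1, fun s hs hs1 => ?_⟩
  show L p s * L p (c2 - s) = lq x * k
  rw [ident hK hx.ne' h s]
  congr 1
  apply hR _ (den_quad x0 c2 x s hs)
  rw [le_div_iff₀ hx]
  have h1 : 0 ≤ |c2| := abs_nonneg _
  have h2 : 0 ≤ |x0| := abs_nonneg _
  have h3 : 0 ≤ |R| := abs_nonneg _
  have h4 : R * x ≤ |R| * x := by nlinarith [le_abs_self R]
  have h5 : s * c2 ≤ |s| * |c2| := by
    rw [← abs_mul]
    exact le_abs_self _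
  have h6 : s * s = |s| * |s| := (abs_mul_abs_self s).symm
  have h7 : x0 ≤ |x0| := le_abs_self _
  have h8 : 0 ≤ |R| * x := by positivity
  have h9 : 1 ≤ |s| := by linarith
  have h10 : |s| * (|s| - |c2|) ≥ 1 * (|x0| + |R| * x + 1) := by
    apply mul_le_mul h9 (by linarith) (by linarith) (by linarith)
  nlinarith

/-- Two reflections give a quasi-period. -/
theorem period (hK : Module.finrank ℚ K = 3) {q : K} (hq : q ∉ Set.range (algebraMap ℚ K))
    {e1 e2 : ℚ} {r1 r2 : ℤ} (h1 : Ev (fun s => L q s * L q (e1 - s) = r1))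
    (h2 : Ev (fun s => L q s * L q (e2 - s) = r2)) :
    Ev (fun s => L q (s + (e2 - e1)) = r1 * r2 * L q s) := by
  intro Q hQ
  obtain ⟨R1, hR1⟩ := h1 Q hQ
  obtain ⟨R2, hR2⟩ := h2 (e1.den * Q) (Nat.mul_pos e1.den_pos hQ)
  refine ⟨max R1 (R2 + |e1|), fun s hs hs1 => ?_⟩
  have a1 : L q s * L q (e1 - s) = r1 := hR1 s hs (le_trans (le_max_left _ _) hs1)
  have a2 : L q (e1 - s) * L q (e2 - (e1 - s)) = r2 := hR2 (e1 - s) ((den_sub _ _).trans (Nat.mul_dvd_mul dvd_rfl hs)) (by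
    have h3 : R2 + |e1| ≤ |s| := le_trans (le_max_right _ _) hs1
    have h4 : |s| - |e1| ≤ |e1 - s| := by
      rw [abs_sub_comm]
      exact abs_sub_abs_le_abs_sub s e1
    linarith)
  rw [show e2 - (e1 - s) = s + (e2 - e1) by ring] at a2
  have b1 := L_sq hK hq s
  have b2 := L_sq hK hq (e1 - s)
  show L q (s + (e2 - e1)) = r1 * r2 * L q s
  rw [← a1, ← a2]
  calc L q (s + (e2 - e1)) = (L q s * L q s) * (L q (e1 - s) * L q (e1 - s)) *
        L q (s + (e2 - e1)) := by rw [b1, b2]; ring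
    _ = _ := by ring

theorem iter {q : K} {d : ℚ} {η : ℤ} (h : Ev (fun s => L q (s + d) = η * L q s)) (Q : ℕ)
    (hQ : 0 < Q) : ∃ R : ℚ, ∀ k : ℕ, ∀ s : ℚ, s.den ∣ Q → R + k * |d| ≤ |s| →
      L q (s + k * d) = η ^ k * L q s := by
  obtain ⟨R, hR⟩ := h (Q * d.den) (Nat.mul_pos hQ d.den_pos)
  refine ⟨R, fun k => ?_⟩
  induction k with
  | zero =>
    intro s hs _
    simp
  | succ k ih =>
    intro s hs h1
    have hd : 0 ≤ |d| := abs_nonneg d
    push_cast at h1
    have h2 := ih s hs (by linarith)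
    have h3 : (s + k * d).den ∣ Q * d.den := by
      refine (Rat.add_den_dvd _ _).trans (Nat.mul_dvd_mul hs ?_)
      have := Rat.mul_den_dvd (k : ℚ) d
      rw [Rat.den_natCast, one_mul] at this
      exact this
    have h4 : R ≤ |s + k * d| := by
      have h5 : |s| - |(k : ℚ) * d| ≤ |s + k * d| := by
        have := abs_sub_abs_le_abs_sub s (-((k : ℚ) * d))
        rw [abs_neg, sub_neg_eq_add] at this
        exact this
      rw [abs_mul, Nat.abs_cast] at h5
      linarith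
    have h6 := hR _ h3 h4
    simp only at h6
    rw [show s + ((k + 1 : ℕ) : ℚ) * d = s + k * d + d by push_cast; ring, h6, h2, pow_succ]
    ring

theorem eta_one (hK : Module.finrank ℚ K = 3) {q r : K}
    (hq : q ∉ Set.range (algebraMap ℚ K))
    {y0 c2 y dr dq : ℚ} {ηr ηq : ℤ} (hy : y ≠ 0) (hdr : dr ≠ 0) (hdq : dq ≠ 0)
    (h : r ^ 2 = algebraMap ℚ K y0 + algebraMap ℚ K c2 * r + algebraMap ℚ K y * q)
    (hηq : ηq * ηq = 1)
    (Hr : Ev (fun s => L r (s + dr) = ηr * L r s)) (Hq : Ev (fun s => L q (s + dq) = ηq * L q s)) :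
    ηq = 1 := by
  set A : ℚ := (c2 - dr) / 2 with hA
  set e : ℚ := dq * y / (2 * dr) with he
  have he0 : e ≠ 0 := by
    rw [he]
    exact div_ne_zero (mul_ne_zero hdq hy) (mul_ne_zero two_ne_zero hdr)
  set Q1 : ℕ := A.den * e.den with hQ1
  have hQ1p : 0 < Q1 := Nat.mul_pos A.den_pos e.den_pos
  set Q2 : ℕ := (Q1 * (Q1 * c2.den)) * y0.den * (y⁻¹).den with hQ2
  have hQ2p : 0 < Q2 := den_pos' hQ1p y0 c2 y
  obtain ⟨Rr, hRr⟩ := Hr Q1 hQ1p
  obtain ⟨Rq, hRq⟩ := iter Hq Q2 hQ2p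
  set B : ℚ := (c2 ^ 2 - dr ^ 2) / 4 + y0 with hB
  have hep : 0 < |e| := abs_pos.2 he0
  set M : ℚ := |A| + |Rr| + 3 * |dr| + 1 + |B| + |y| * |Rq| with hM
  obtain ⟨n, hn⟩ := exists_nat_gt (M / |e|)
  set k : ℕ := 2 * n + 1 with hk
  have hkE : M ≤ k * |e| := by
    rw [div_lt_iff₀ hep] at hn
    have : (n : ℚ) ≤ k := by
      rw [hk]; push_cast; linarith [Nat.cast_nonneg (α := ℚ) n]
    nlinarith
  have hA0 : 0 ≤ |A| := abs_nonneg _
  have hR0 : 0 ≤ |Rr| := abs_nonneg _
  have hd0 : 0 ≤ |dr| := abs_nonneg _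
  have hB0 : 0 ≤ |B| := abs_nonneg _
  have hyR : 0 ≤ |y| * |Rq| := by positivity
  have hke : |(k : ℚ) * e| = k * |e| := by rw [abs_mul, Nat.abs_cast]
  -- the two points for `r`
  have hden1 : ((k : ℚ) * e).den ∣ e.den := by
    have := Rat.mul_den_dvd (k : ℚ) e
    rw [Rat.den_natCast, one_mul] at this
    exact this
  have h1 := hRr (A + k * e) ((Rat.add_den_dvd _ _).trans (Nat.mul_dvd_mul dvd_rfl hden1)) (by
    have h5 : |(k : ℚ) * e| - |A| ≤ |A + k * e| := by
      have := abs_sub_abs_le_abs_sub ((k : ℚ) * e) (-A)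
      rw [abs_neg, sub_neg_eq_add, add_comm ((k : ℚ) * e) A] at this
      exact this
    rw [hke] at h5
    linarith [le_abs_self Rr])
  have h2 := hRr (A - k * e) ((den_sub _ _).trans (Nat.mul_dvd_mul dvd_rfl hden1)) (by
    have h5 : |(k : ℚ) * e| - |A| ≤ |A - k * e| := by
      rw [abs_sub_comm]
      exact abs_sub_abs_le_abs_sub _ _
    rw [hke] at h5
    linarith [le_abs_self Rr])
  simp only at h1 h2
  have i1 := ident hK hy h (A + k * e)
  have i2 := ident hK hy h (A + k * e + dr)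
  rw [show c2 - (A + k * e + dr) = A - k * e by rw [hA]; ring] at i2
  rw [show c2 - (A + k * e) = A - k * e + dr by rw [hA]; ring] at i1
  rw [h2] at i1
  rw [h1] at i2
  -- the values at the two arguments of `q` agree
  set Y : ℚ := ((A + k * e) * (A + k * e - c2) - y0) / y with hY
  have hY2 : ((A + k * e + dr) * (A + k * e + dr - c2) - y0) / y = Y + k * dq := by
    rw [hY, hA, he]
    field_simp
    ring
  rw [hY2] at i2
  have hlq : lq y * lq y = 1 := lq_sq hy
  have h3 : L q (Y + k * dq) = L q Y := by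
    have h4 : lq y * L q (Y + k * dq) = lq y * L q Y := by
      rw [← i1, ← i2]
      ring
    calc L q (Y + k * dq) = lq y * lq y * L q (Y + k * dq) := by rw [hlq, one_mul]
      _ = lq y * (lq y * L q (Y + k * dq)) := by ring
      _ = lq y * (lq y * L q Y) := by rw [h4]
      _ = (lq y * lq y) * L q Y := by ring
      _ = L q Y := by rw [hlq, one_mul]
  -- iterate the period of `q`
  have hdenY : Y.den ∣ Q2 := by
    rw [hY, hQ2]
    exact den_quad y0 c2 y _ ((Rat.add_den_dvd _ _).trans (Nat.mul_dvd_mul dvd_rfl hden1))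
  have hYabs : Rq + k * |dq| ≤ |Y| := by
    have hyp : 0 < |y| := abs_pos.2 hy
    have e1 : |y| * |Y| = |(k * e) ^ 2 - dr * (k * e) - B| := by
      rw [← abs_mul]
      congr 1
      rw [hY, hA, hB]
      field_simp
      ring
    have e2 : (k * |e|) ^ 2 - |dr| * (k * |e|) - |B| ≤ |(k * e) ^ 2 - dr * (k * e) - B| := by
      have f1 : |(k * e) ^ 2| = (k * |e|) ^ 2 := by rw [abs_pow, hke]
      have f2 : |dr * (k * e)| = |dr| * (k * |e|) := by rw [abs_mul, hke]
      have f3 := abs_sub_abs_le_abs_sub ((k * e) ^ 2) (dr * (k * e))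
      have f4 := abs_sub_abs_le_abs_sub ((k * e) ^ 2 - dr * (k * e)) B
      rw [f1, f2] at f3
      linarith
    have e3 : |y| * (k * |dq|) = 2 * |dr| * (k * |e|) := by
      have f5 : |e| * (2 * |dr|) = |dq| * |y| := by
        rw [← abs_mul, show (2 : ℚ) * |dr| = |2 * dr| by rw [abs_mul, abs_two], ← abs_mul, he]
        congr 1
        field_simp
      calc |y| * (k * |dq|) = k * (|dq| * |y|) := by ring
        _ = k * (|e| * (2 * |dr|)) := by rw [f5]
        _ = _ := by ring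
    have e4 : |y| * (Rq + k * |dq|) ≤ |y| * |Y| := by
      rw [e1]
      refine le_trans ?_ e2
      rw [mul_add, e3]
      have f6 : |y| * Rq ≤ |y| * |Rq| := mul_le_mul_of_nonneg_left (le_abs_self _) hyp.le
      set E : ℚ := k * |e| with hE
      have f7 : E * (E - 3 * |dr|) ≥ E * (1 + |B| + |y| * |Rq|) := by
        apply mul_le_mul_of_nonneg_left _ (by linarith)
        linarith
      have f8 : E * (1 + |B| + |y| * |Rq|) ≥ 1 * (1 + |B| + |y| * |Rq|) := by
        apply mul_le_mul_of_nonneg_right _ (by linarith)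
        linarith
      nlinarith
    exact le_of_mul_le_mul_left e4 hyp
  have h5 := hRq k Y hdenY hYabs
  rw [h3] at h5
  have h6 : ηq ^ k = ηq := by
    rw [hk, pow_succ, pow_mul, sq, hηq, one_pow, one_mul]
  rw [h6] at h5
  have h7 := L_sq hK hq Y
  calc ηq = ηq * (L q Y * L q Y) := by rw [h7, mul_one]
    _ = (ηq * L q Y) * L q Y := by ring
    _ = L q Y * L q Y := by rw [← h5]
    _ = 1 := h7

end Pool.Agent.Lib.MP_648c71_nt.AB
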