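import Mathlib
import Pool.Agent.Lib.MP_648c71_nt.Lam

/-!
# Exceptional generators of a cubic field: definitions
-/

set_option autoImplicit false

namespace Pool.Agent.Lib.MP_648c71_nt.AB

open Pool.Agent.Lib.MP_648c71_nt

/-- The Liouville function on the rational numbers. -/
def lq (x : ℚ) : ℤ := lam (x.num * x.den)

variable {K : Type} [Field K] [Algebra ℚ K]

/-- `λ(N(s - p))` -/
noncomputable def L (p : K) (s : ℚ) : ℤ := lq (Algebra.norm ℚ (algebraMap ℚ K s - p))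

/-- `L p` is constant (`= k`) on large rational numbers of bounded denominator. -/
def Bad (p : K) (k : ℤ) : Prop :=
  ∀ Q : ℕ, 0 < Q → ∃ R : ℚ, ∀ s : ℚ, s.den ∣ Q → R ≤ s → L p s = k

/-- Both signs occur infinitely often in `λ(y^3 f(n/y))`, `n > 0`, for all multiples `y` of some `y0`,
`f = a T^3 + b T^2 + c T + d`. -/
def Good (a b c d : ℤ) : Prop :=
  ∃ y0 : ℕ, 0 < y0 ∧ ∀ y : ℕ, 0 < y → y0 ∣ y → ∀ e : ℤ, (e = 1 ∨ e = -1) →
    {n : ℕ | 0 < n ∧ lam (a * (n : ℤ) ^ 3 + b * y * (n : ℤ) ^ 2 + c * (y : ℤ) ^ 2 * n + d * (y : ℤ) ^ 3) = e}.Infinite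

end Pool.Agent.Lib.MP_648c71_nt.AB
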