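import Pool.Agent.Lib.MP_648c71_nt.AB.Defs

/-!
# Exceptional generators of a cubic field: the norm form, and the reduction to `Bad`
-/

set_option autoImplicit false

namespace Pool.Agent.Lib.MP_648c71_nt.AB

open Pool.Agent.Lib.MP_648c71_nt Polynomial

variable {K : Type} [Field K] [Algebra ℚ K]

/-- An element of a cubic field outside `ℚ` is a root of no polynomial of degree at most two. -/
theorem red_deg (hK : Module.finrank ℚ K = 3) {t : K} (hn : t ∉ Set.range (algebraMap ℚ K))
    {r : ℚ[X]} (hr : aeval t r = 0) (hd : r.natDegree ≤ 2) : r = 0 := by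
  by_contra h0
  have : FiniteDimensional ℚ K := Module.finite_of_finrank_pos (by rw [hK]; norm_num)
  have hint : IsIntegral ℚ t := IsIntegral.of_finite ℚ t
  have h1 : (minpoly ℚ t).natDegree ∣ 3 := by
    rw [← hK]
    exact minpoly.degree_dvd hint
  have h2 : (minpoly ℚ t).natDegree ≤ 2 :=
    (Polynomial.natDegree_le_natDegree (minpoly.degree_le_of_ne_zero ℚ t h0 hr)).trans hd
  have h3 : (minpoly ℚ t).natDegree = 1 := by
    rcases (Nat.dvd_prime Nat.prime_three).1 h1 with h | h
    · exact h
    · omega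
  exact hn (minpoly.natDegree_eq_one_iff.1 h3)

/-- The norm of `s - t`. -/
theorem norm_sub (hK : Module.finrank ℚ K = 3) {a b c d : ℤ} (ha : a ≠ 0) {t : K}
    (ht : (a : K) * t ^ 3 + (b : K) * t ^ 2 + (c : K) * t + (d : K) = 0)
    (hn : t ∉ Set.range (algebraMap ℚ K)) (s : ℚ) :
    (a : ℚ) * Algebra.norm ℚ (algebraMap ℚ K s - t) = a * s ^ 3 + b * s ^ 2 + c * s + d := by
  have : FiniteDimensional ℚ K := Module.finite_of_finrank_pos (by rw [hK]; norm_num)
  set F : ℚ[X] := (Algebra.lmul ℚ K t).charpoly with hF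
  set p : ℚ[X] := C (a : ℚ) * X ^ 3 + C (b : ℚ) * X ^ 2 + C (c : ℚ) * X + C (d : ℚ) with hp
  have hFm : F.Monic := LinearMap.charpoly_monic _
  have hFd : F.natDegree = 3 := by rw [hF, LinearMap.charpoly_natDegree, hK]
  have hFt : aeval t F = 0 := Algebra.aeval_self_charpoly_lmul t
  have hpt : aeval t p = 0 := by
    rw [hp]
    simp only [map_add, map_mul, map_pow, aeval_C, aeval_X]
    simpa using ht
  have hr : p - C (a : ℚ) * F = 0 := by
    apply red_deg hK hn
    · rw [map_sub, map_mul, hpt, hFt, mul_zero, sub_zero]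
    · rw [Polynomial.natDegree_le_iff_coeff_eq_zero]
      intro N hN
      rw [coeff_sub, coeff_C_mul]
      have h4 : N = 3 ∨ 3 < N := by omega
      rcases h4 with rfl | h4
      · have h5 : F.coeff 3 = 1 := by
          have := hFm.coeff_natDegree
          rwa [hFd] at this
        rw [h5, hp]
        simp only [coeff_add, coeff_C_mul, coeff_X_pow, coeff_X, coeff_C]
        norm_num
      · have h5 : F.coeff N = 0 := Polynomial.coeff_eq_zero_of_natDegree_lt (by omega)
        have h6 : p.coeff N = 0 := by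
          apply Polynomial.coeff_eq_zero_of_natDegree_lt
          refine lt_of_le_of_lt ?_ h4
          rw [hp]
          compute_degree
        rw [h5, h6]
        ring
  have h7 : p.eval s = (a : ℚ) * F.eval s := by
    have := congrArg (Polynomial.eval s) hr
    rw [eval_sub, eval_mul, eval_C, eval_zero] at this
    linarith
  have h8 : F.eval s = Algebra.norm ℚ (algebraMap ℚ K s - t) := by
    rw [hF, LinearMap.eval_charpoly, Algebra.norm_apply]
    congr 1
    ext x
    simp [Algebra.lmul, Algebra.smul_def]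
  rw [← h8, ← h7, hp]
  simp only [eval_add, eval_mul, eval_C, eval_pow, eval_X]

/-- `λ(m / D) = λ(m D)`. -/
theorem lq_div_int {m D : ℤ} (hD : D ≠ 0) {x : ℚ} (hx : x * (D : ℚ) = m) : lq x = lam (m * D) := by
  unfold lq
  by_cases hm : m = 0
  · have hx0 : x = 0 := by
      have : x * (D : ℚ) = 0 := by rw [hx, hm]; simp
      rcases mul_eq_zero.1 this with h | h
      · exact h
      · exact absurd (by exact_mod_cast h) hD
    rw [hx0, hm]
    simp
  · have hx0 : x ≠ 0 := by
      intro h
      rw [h, zero_mul] at hx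
      exact hm (by exact_mod_cast hx.symm)
    have hnum : x.num ≠ 0 := Rat.num_ne_zero.2 hx0
    have hden : (x.den : ℤ) ≠ 0 := by exact_mod_cast x.den_ne_zero
    have h1 : x.num * D = m * x.den := by
      have h2 : (x.num : ℚ) * D = m * x.den := by
        have h3 : (x.num : ℚ) = x * x.den := (Rat.mul_den_eq_num x).symm
        rw [h3, ← hx]
        ring
      exact_mod_cast h2
    have h4 : lam x.num * lam D = lam m * lam x.den := by rw [← lam_mul, h1, lam_mul]
    rw [lam_mul, lam_mul]
    have e1 := lam_mul_self hden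
    have e2 := lam_mul_self hD
    calc lam x.num * lam x.den = (lam x.num * lam D) * lam D * lam x.den := by
          rw [mul_assoc (lam x.num), e2, mul_one]
      _ = (lam m * lam x.den) * lam D * lam x.den := by rw [h4]
      _ = lam m * lam D * (lam x.den * lam x.den) := by ring
      _ = lam m * lam D := by rw [e1, mul_one]

/-- If the two signs do not both occur infinitely often, then `t` is exceptional. -/
theorem bad_of_not_good (hK : Module.finrank ℚ K = 3) {a b c d : ℤ} (ha : a ≠ 0) {t : K}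
    (ht : (a : K) * t ^ 3 + (b : K) * t ^ 2 + (c : K) * t + (d : K) = 0)
    (hn : t ∉ Set.range (algebraMap ℚ K)) (h : ¬ Good a b c d) :
    ∃ k : ℤ, (k = 1 ∨ k = -1) ∧ Bad t k := by
  have : FiniteDimensional ℚ K := Module.finite_of_finrank_pos (by rw [hK]; norm_num)
  have hne : ∀ s : ℚ, Algebra.norm ℚ (algebraMap ℚ K s - t) ≠ 0 := by
    intro s h0
    rw [Algebra.norm_eq_zero_iff, sub_eq_zero] at h0
    exact hn ⟨s, h0⟩
  -- one denominator
  have key : ∀ Q : ℕ, 0 < Q → ∃ k : ℤ, (k = 1 ∨ k = -1) ∧ ∃ R : ℚ, ∀ s : ℚ, s.den ∣ Q → R ≤ s → L t s = k := by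
    intro Q hQ
    unfold Good at h
    push Not at h
    obtain ⟨y, hy, hQy, e, he, hfin⟩ := h Q hQ
    obtain ⟨B, hB⟩ := hfin.bddAbove
    have hay : a * y ≠ 0 := mul_ne_zero ha (by exact_mod_cast hy.ne')
    refine ⟨lam (a * y) * (-e), ?_, (B : ℚ) + 1, ?_⟩
    · rcases lam_eq_one_or hay with h1 | h1 <;> rcases he with h2 | h2 <;> rw [h1, h2] <;> norm_num
    · intro s hs hR
      have hyq : (0 : ℚ) < y := by exact_mod_cast hy
      obtain ⟨m, hm⟩ := hs.trans hQy
      -- `s = n / y`
      have hsn : s * (y : ℚ) = ((s.num * (m : ℤ) : ℤ) : ℚ) := by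
        rw [hm]
        push_cast
        rw [← mul_assoc, Rat.mul_den_eq_num]
      have hpos : (0 : ℚ) < s * y := mul_pos (by have : (0 : ℚ) ≤ B := Nat.cast_nonneg _; linarith) hyq
      have hnpos : 0 < s.num * (m : ℤ) := by
        rw [hsn] at hpos
        exact_mod_cast hpos
      obtain ⟨n, hn'⟩ := Int.eq_ofNat_of_zero_le hnpos.le
      rw [hn'] at hsn hnpos
      push_cast at hsn
      have hn0 : 0 < n := by exact_mod_cast hnpos
      have hnB : B < n := by
        have h1 : (1 : ℚ) ≤ y := by exact_mod_cast hy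
        have h2 : (B : ℚ) < n := by
          rw [← hsn]
          nlinarith [(Nat.cast_nonneg B : (0 : ℚ) ≤ B)]
        exact_mod_cast h2
      set v : ℤ := a * (n : ℤ) ^ 3 + b * y * (n : ℤ) ^ 2 + c * (y : ℤ) ^ 2 * n + d * (y : ℤ) ^ 3 with hv
      have hnorm := norm_sub hK ha ht hn s
      have hval : Algebra.norm ℚ (algebraMap ℚ K s - t) * ((a * (y : ℤ) ^ 3 : ℤ) : ℚ) = (v : ℤ) := by
        rw [hv]
        push_cast
        have : Algebra.norm ℚ (algebraMap ℚ K s - t) * ((a : ℚ) * (y : ℚ) ^ 3) =
            ((a : ℚ) * Algebra.norm ℚ (algebraMap ℚ K s - t)) * (y : ℚ) ^ 3 := by ring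
        rw [this, hnorm, ← hsn]
        ring
      have hv0 : v ≠ 0 := by
        intro h0
        rw [h0] at hval
        simp only [Int.cast_zero, mul_eq_zero] at hval
        rcases hval with h1 | h1
        · exact hne s h1
        · have : (a * (y : ℤ) ^ 3 : ℤ) = 0 := by exact_mod_cast h1
          rcases mul_eq_zero.1 this with h2 | h2
          · exact ha h2
          · exact hy.ne' (by exact_mod_cast pow_eq_zero_iff (n := 3) (by norm_num) |>.1 h2)
      have hve : lam v = -e := by
        have h1 : lam v ≠ e := by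
          intro h1
          have h2 : n ≤ B := hB (by exact ⟨hn0, h1⟩)
          omega
        rcases lam_eq_one_or hv0 with h2 | h2 <;> rcases he with h3 | h3
        · rw [h2, h3] at h1; exact absurd rfl h1
        · rw [h2, h3]; norm_num
        · rw [h2, h3]
        · rw [h2, h3] at h1; exact absurd rfl h1
      have hD : (a * (y : ℤ) ^ 3 : ℤ) ≠ 0 := mul_ne_zero ha (pow_ne_zero _ (by exact_mod_cast hy.ne'))
      unfold L
      rw [lq_div_int hD hval, lam_mul, hve]
      have h5 : (a * (y : ℤ) ^ 3 : ℤ) = (y : ℤ) ^ 2 * (a * y) := by ring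
      rw [h5, lam_sq_mul (by exact_mod_cast hy.ne')]
      ring
  obtain ⟨k, hk, R1, hR1⟩ := key 1 one_pos
  refine ⟨k, hk, ?_⟩
  intro Q hQ
  obtain ⟨k', -, R, hR⟩ := key Q hQ
  refine ⟨R, ?_⟩
  intro s hs hRs
  rw [hR s hs hRs]
  -- compare at a large integer
  obtain ⟨N, hN⟩ := exists_nat_ge (max R R1)
  have e1 : L t (N : ℚ) = k' := hR _ (by rw [Rat.den_natCast]; exact one_dvd _) ((le_max_left _ _).trans hN)
  have e2 : L t (N : ℚ) = k := hR1 _ (by rw [Rat.den_natCast]) ((le_max_right _ _).trans hN)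
  rw [← e1, e2]

end Pool.Agent.Lib.MP_648c71_nt.AB
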