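import Pool.Agent.Lib.MP_648c71_nt.AB.Two
import Pool.Agent.Lib.MP_648c71_nt.AB.Red

/-!
# At most two exceptional rays
-/

set_option autoImplicit false

namespace Pool.Agent.Lib.MP_648c71_nt.AB

open Pool.Agent.Lib.MP_648c71_nt

variable {K : Type} [Field K] [Algebra ℚ K]

/-- determinant of three elements in a basis -/
noncomputable def D3 (B : Module.Basis (Fin 3) ℚ K) (x y z : K) : ℚ :=
  B.repr x 0 * B.repr y 1 * B.repr z 2 - B.repr x 0 * B.repr y 2 * B.repr z 1
  - B.repr x 1 * B.repr y 0 * B.repr z 2 + B.repr x 1 * B.repr y 2 * B.repr z 0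
  + B.repr x 2 * B.repr y 0 * B.repr z 1 - B.repr x 2 * B.repr y 1 * B.repr z 0

/-- the index form -/
noncomputable def D (B : Module.Basis (Fin 3) ℚ K) (t : K) : ℚ := D3 B 1 t (t ^ 2)

theorem D3_comb (B : Module.Basis (Fin 3) ℚ K) (x y z : K) (a b c : ℚ) :
    D3 B x y (algebraMap ℚ K a * x + algebraMap ℚ K b * y + algebraMap ℚ K c * z) =
      c * D3 B x y z := by
  unfold D3
  simp only [← Algebra.smul_def, map_add, map_smul, Finsupp.add_apply, Finsupp.smul_apply,
    smul_eq_mul]
  ring

theorem D3_swap (B : Module.Basis (Fin 3) ℚ K) (x y z : K) : D3 B x z y = - D3 B x y z := by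
  unfold D3
  ring

/-- the index form of `s + r t` -/
theorem D_affine (B : Module.Basis (Fin 3) ℚ K) (t : K) (r s : ℚ) :
    D B (algebraMap ℚ K s + algebraMap ℚ K r * t) = r ^ 3 * D B t := by
  unfold D D3
  have h : (algebraMap ℚ K s + algebraMap ℚ K r * t) ^ 2 =
      (s ^ 2) • (1 : K) + (2 * s * r) • t + (r ^ 2) • t ^ 2 := by
    simp only [Algebra.smul_def, map_mul, map_pow, map_ofNat]
    ring
  have h2 : algebraMap ℚ K s + algebraMap ℚ K r * t = s • (1 : K) + r • t := by
    simp only [Algebra.smul_def, mul_one]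
  rw [h, h2]
  simp only [map_add, map_smul, Finsupp.add_apply, Finsupp.smul_apply, smul_eq_mul]
  ring

/-- `1, t, t ^ 2` are independent. -/
theorem pow_indep (hK : Module.finrank ℚ K = 3) {t : K} (hn : t ∉ Set.range (algebraMap ℚ K)) :
    LinearIndependent ℚ ![1, t, t ^ 2] := by
  have : Module.Finite ℚ K := Module.finite_of_finrank_pos (by rw [hK]; norm_num)
  have hint : IsIntegral ℚ t := IsIntegral.of_finite ℚ t
  have h1 : (minpoly ℚ t).natDegree ∣ 3 := by
    rw [← hK]
    exact minpoly.degree_dvd hint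
  have h2 : (minpoly ℚ t).natDegree = 3 := by
    rcases (Nat.dvd_prime Nat.prime_three).1 h1 with h | h
    · exfalso
      apply hn
      exact (minpoly.natDegree_eq_one_iff).1 h
    · exact h
  have h3 := linearIndependent_pow (K := ℚ) t
  rw [h2] at h3
  have h4 : (![1, t, t ^ 2] : Fin 3 → K) = fun i : Fin 3 => t ^ (i : ℕ) := by
    funext i
    fin_cases i <;> simp
  rw [h4]
  exact h3

theorem li_iff {x y z : K} : LinearIndependent ℚ ![x, y, z] ↔
    ∀ a b c : ℚ, algebraMap ℚ K a * x + algebraMap ℚ K b * y + algebraMap ℚ K c * z = 0 →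
      a = 0 ∧ b = 0 ∧ c = 0 := by
  rw [Fintype.linearIndependent_iff]
  constructor
  · intro h a b c habc
    have h1 := h ![a, b, c] (by
      rw [Fin.sum_univ_three]
      simpa [Algebra.smul_def] using habc)
    exact ⟨h1 0, h1 1, h1 2⟩
  · intro h g hg i
    rw [Fin.sum_univ_three] at hg
    have h1 := h (g 0) (g 1) (g 2) (by simpa [Algebra.smul_def] using hg)
    fin_cases i
    · exact h1.1
    · exact h1.2.1
    · exact h1.2.2

/-- Every element is a combination of three independent ones. -/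
theorem expand (hK : Module.finrank ℚ K = 3) {x y z : K} (h : LinearIndependent ℚ ![x, y, z])
    (v : K) : ∃ a b c : ℚ,
      v = algebraMap ℚ K a * x + algebraMap ℚ K b * y + algebraMap ℚ K c * z := by
  have : Module.Finite ℚ K := Module.finite_of_finrank_pos (by rw [hK]; norm_num)
  have hb := h.span_eq_top_of_card_eq_finrank' (by rw [hK]; simp)
  have hv : v ∈ Submodule.span ℚ (Set.range ![x, y, z]) := by
    rw [hb]
    exact Submodule.mem_top
  obtain ⟨c, hc⟩ := (Submodule.mem_span_range_iff_exists_fun ℚ).1 hv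
  rw [Fin.sum_univ_three] at hc
  refine ⟨c 0, c 1, c 2, ?_⟩
  rw [← hc]
  simp [Algebra.smul_def]

theorem D3_ne (hK : Module.finrank ℚ K = 3) (B : Module.Basis (Fin 3) ℚ K) {x y z : K}
    (h : LinearIndependent ℚ ![x, y, z]) : D3 B x y z ≠ 0 := by
  have : Module.Finite ℚ K := Module.finite_of_finrank_pos (by rw [hK]; norm_num)
  have h1 : B.det ![x, y, z] ≠ 0 := by
    have h2 := h.span_eq_top_of_card_eq_finrank' (by rw [hK]; simp)
    have h3 := (Module.Basis.is_basis_iff_det B (v := ![x, y, z])).1 ⟨h, h2⟩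
    exact h3.ne_zero
  rw [Module.Basis.det_apply, Matrix.det_fin_three] at h1
  simp only [Module.Basis.toMatrix_apply, Matrix.cons_val_zero, Matrix.cons_val_one,
    Matrix.cons_val] at h1
  intro h4
  apply h1
  rw [← h4]
  unfold D3
  ring

theorem D_ne (hK : Module.finrank ℚ K = 3) (B : Module.Basis (Fin 3) ℚ K) {t : K}
    (hn : t ∉ Set.range (algebraMap ℚ K)) : D B t ≠ 0 :=
  D3_ne hK B (pow_indep hK hn)

/-- Two exceptional generators with index forms of the same sign lie on the same ray. -/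
theorem same_ray (hK : Module.finrank ℚ K = 3) (B : Module.Basis (Fin 3) ℚ K) {t1 t2 : K}
    (hn1 : t1 ∉ Set.range (algebraMap ℚ K)) {k1 k2 : ℤ} (B1 : Bad t1 k1) (B2 : Bad t2 k2)
    (hk1 : k1 = 1 ∨ k1 = -1) (hk2 : k2 = 1 ∨ k2 = -1) (hD : 0 < D B t1 * D B t2) :
    ∃ r s : ℚ, 0 < r ∧ t2 = algebraMap ℚ K s + algebraMap ℚ K r * t1 := by
  have hk1' : k1 * k1 = 1 := by rcases hk1 with rfl | rfl <;> norm_num
  have hk2' : k2 * k2 = 1 := by rcases hk2 with rfl | rfl <;> norm_num
  by_cases hli : LinearIndependent ℚ ![1, t1, t2]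
  · exfalso
    obtain ⟨a0, a1, a2, h11⟩ := expand hK hli (t1 ^ 2)
    obtain ⟨c0, c1, c2, h12⟩ := expand hK hli (t1 * t2)
    obtain ⟨b0, b1, b2, h22⟩ := expand hK hli (t2 ^ 2)
    have d1 : D B t1 = a2 * D3 B 1 t1 t2 := by
      unfold D
      rw [h11, D3_comb]
    have d2 : D B t2 = -(b1 * D3 B 1 t1 t2) := by
      unfold D
      rw [h22, show algebraMap ℚ K b0 * 1 + algebraMap ℚ K b1 * t1 + algebraMap ℚ K b2 * t2 =
        algebraMap ℚ K b0 * 1 + algebraMap ℚ K b2 * t2 + algebraMap ℚ K b1 * t1 by ring,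
        D3_comb, D3_swap]
      ring
    have hab : a2 * b1 < 0 := by
      rw [d1, d2] at hD
      by_contra hcon
      push Not at hcon
      nlinarith [mul_nonneg hcon (sq_nonneg (D3 B 1 t1 t2))]
    have hli' := li_iff.1 hli
    rw [mul_one] at h11 h12 h22
    have hli1 : ∀ x y z : ℚ, algebraMap ℚ K x + algebraMap ℚ K y * t1 +
        algebraMap ℚ K z * t2 = 0 → x = 0 ∧ y = 0 ∧ z = 0 := by
      intro x y z h
      exact hli' x y z (by rw [mul_one]; exact h)
    rcases lt_or_ge 0 a2 with ha | ha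
    · exact two_bad hK hli1 h11 h12 h22 ha B1 B2 hk1' hk2'
    · have hb : 0 < b1 := by
        by_contra hcon
        push Not at hcon
        nlinarith [mul_nonneg_of_nonpos_of_nonpos ha hcon]
      refine two_bad hK (t1 := t2) (t2 := t1) ?_ (a0 := b0) (a1 := b2) (a2 := b1) (b0 := a0)
        (b1 := a2) (b2 := a1) (c0 := c0) (c1 := c2) (c2 := c1) ?_ ?_ ?_ hb B2 B1 hk2' hk1'
      · intro x y z h
        have := hli1 x z y (by rw [← h]; ring)
        exact ⟨this.1, this.2.2, this.2.1⟩
      · rw [h22]; ring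
      · rw [mul_comm, h12]; ring
      · rw [h11]; ring
  · -- dependent
    rw [li_iff] at hli
    push Not at hli
    obtain ⟨x, y, z, h0, hne⟩ := hli
    have hz : z ≠ 0 := by
      intro hz
      rw [hz, map_zero, zero_mul, add_zero, mul_one] at h0
      have hy : y ≠ 0 := by
        intro hy
        rw [hy, map_zero, zero_mul, add_zero] at h0
        have hx : x = 0 := by
          have := (map_eq_zero (algebraMap ℚ K)).1 h0
          exact this
        exact hne hx hy hz
      apply hn1
      refine ⟨-x / y, ?_⟩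
      have hyK : algebraMap ℚ K y ≠ 0 := (map_ne_zero _).2 hy
      rw [map_div₀, map_neg, div_eq_iff hyK]
      linear_combination -h0
    have hzK : algebraMap ℚ K z ≠ 0 := (map_ne_zero _).2 hz
    have ht2 : t2 = algebraMap ℚ K (-x / z) + algebraMap ℚ K (-y / z) * t1 := by
      rw [map_div₀, map_div₀, map_neg, map_neg]
      field_simp
      linear_combination h0
    refine ⟨-y / z, -x / z, ?_, ht2⟩
    rw [ht2, D_affine] at hD
    have h1 : 0 < (-y / z) ^ 3 * (D B t1 * D B t1) := by linarith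
    have h2 : 0 ≤ D B t1 * D B t1 := mul_self_nonneg _
    have h3 : 0 < (-y / z) ^ 3 := by
      by_contra hcon
      push Not at hcon
      nlinarith
    by_contra hcon
    push Not at hcon
    have h4 : (-y / z) ^ 3 ≤ 0 := by
      have : (-y / z) ^ 3 = (-y / z) * (-y / z) ^ 2 := by ring
      rw [this]
      exact mul_nonpos_of_nonpos_of_nonneg hcon (sq_nonneg _)
    linarith

end Pool.Agent.Lib.MP_648c71_nt.AB
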