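import Pool.Agent.Lib.MP_648c71_nt.AB.Defs

/-!
# The Liouville function on the rational numbers
-/

set_option autoImplicit false

namespace Pool.Agent.Lib.MP_648c71_nt.AB

open Pool.Agent.Lib.MP_648c71_nt

theorem lq_div (a b : ℤ) (hb : b ≠ 0) : lq ((a : ℚ) / b) = lam (a * b) := by
  set x : ℚ := (a : ℚ) / b with hx
  have hd : (x.den : ℤ) ≠ 0 := by exact_mod_cast x.den_nz
  have hbq : (b : ℚ) ≠ 0 := by exact_mod_cast hb
  have hdq : (x.den : ℚ) ≠ 0 := by exact_mod_cast x.den_nz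
  have h1 : a * x.den = x.num * b := by
    have h2 : (a : ℚ) / b = x.num / x.den := by rw [Rat.num_div_den]
    rw [div_eq_div_iff hbq hdq] at h2
    exact_mod_cast h2
  have h3 : (x.den : ℤ) ^ 2 * (a * b) = b ^ 2 * (x.num * x.den) := by
    calc (x.den : ℤ) ^ 2 * (a * b) = (a * x.den) * (b * x.den) := by ring
      _ = (x.num * b) * (b * x.den) := by rw [h1]
      _ = b ^ 2 * (x.num * x.den) := by ring
  unfold lq
  rw [← lam_sq_mul hb, ← h3, lam_sq_mul hd]

theorem lq_mul (x y : ℚ) : lq (x * y) = lq x * lq y := by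
  have hx : (x.den : ℤ) ≠ 0 := by exact_mod_cast x.den_nz
  have hy : (y.den : ℤ) ≠ 0 := by exact_mod_cast y.den_nz
  have h1 : x * y = ((x.num * y.num : ℤ) : ℚ) / ((x.den * y.den : ℤ) : ℚ) := by
    conv_lhs => rw [← Rat.num_div_den x, ← Rat.num_div_den y]
    push_cast
    rw [div_mul_div_comm]
  rw [h1, lq_div _ _ (mul_ne_zero hx hy)]
  unfold lq
  rw [← lam_mul]
  congr 1
  ring

theorem lq_int (n : ℤ) : lq (n : ℚ) = lam n := by
  have := lq_div n 1 one_ne_zero
  rw [Int.cast_one, div_one, mul_one] at this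
  exact this

theorem lq_one : lq 1 = 1 := by
  have := lq_int 1
  rw [Int.cast_one, lam_one] at this
  exact this

theorem lq_neg (x : ℚ) : lq (-x) = lq x := by
  unfold lq
  rw [Rat.num_neg_eq_neg_num, Rat.den_neg_eq_den, neg_mul, lam_neg]

theorem lq_sq {x : ℚ} (hx : x ≠ 0) : lq x * lq x = 1 := by
  unfold lq
  exact lam_mul_self (mul_ne_zero (Rat.num_ne_zero.2 hx) (by exact_mod_cast x.den_nz))

theorem lq_or {x : ℚ} (hx : x ≠ 0) : lq x = 1 ∨ lq x = -1 :=
  mul_self_eq_one_iff.1 (lq_sq hx)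

theorem lq_two : lq 2 = -1 := by
  have := lq_int 2
  rw [show ((2 : ℤ) : ℚ) = 2 by norm_num] at this
  rw [this]
  exact lam_prime Nat.prime_two

theorem lq_inv (x : ℚ) : lq x⁻¹ = lq x := by
  rcases eq_or_ne x 0 with rfl | hx
  · simp
  · have h1 := lq_mul x x⁻¹
    rw [mul_inv_cancel₀ hx, lq_one] at h1
    have h2 := lq_sq hx
    have h3 : lq x * (lq x * lq x⁻¹) = lq x * 1 := by rw [← h1]
    rw [← mul_assoc, h2, one_mul, mul_one] at h3
    exact h3

theorem lq_pow_three (x : ℚ) (hx : x ≠ 0) : lq (x ^ 3) = lq x := by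
  rw [pow_succ, pow_two, lq_mul, lq_mul, lq_sq hx, one_mul]

end Pool.Agent.Lib.MP_648c71_nt.AB
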