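import Pool.Agent.Lib.MP_648c71_nt.AB.Fin

/-!
# The three parts of the theorem
-/

set_option autoImplicit false

namespace Pool.Agent.Lib.MP_648c71_nt.AB

open Pool.Agent.Lib.MP_648c71_nt

variable {K : Type} [Field K] [Algebra ℚ K]

/-- Both signs occur infinitely often in `λ(y^3 f(n/y))`, `n ∈ ℤ`. -/
def GoodZ (a b c d : ℤ) : Prop :=
  ∃ y0 : ℕ, 0 < y0 ∧ ∀ y : ℕ, 0 < y → y0 ∣ y → ∀ e : ℤ, (e = 1 ∨ e = -1) →
    {n : ℤ | lam (a * n ^ 3 + b * y * n ^ 2 + c * (y : ℤ) ^ 2 * n + d * (y : ℤ) ^ 3) = e}.Infinite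

theorem Good.toZ {a b c d : ℤ} (h : Good a b c d) : GoodZ a b c d := by
  obtain ⟨y0, h0, h1⟩ := h
  refine ⟨y0, h0, fun y hy hyy e he => ?_⟩
  refine ((h1 y hy hyy e he).image (f := fun n : ℕ => (n : ℤ)) ?_).mono ?_
  · intro x _ z _ hxz
    exact Int.ofNat_inj.1 hxz
  · rintro _ ⟨n, hn, rfl⟩
    exact hn.2

theorem Good.toZ_neg {a b c d : ℤ} (h : Good a (-b) c (-d)) : GoodZ a b c d := by
  obtain ⟨y0, h0, h1⟩ := h
  refine ⟨y0, h0, fun y hy hyy e he => ?_⟩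
  refine ((h1 y hy hyy e he).image (f := fun n : ℕ => -(n : ℤ)) ?_).mono ?_
  · intro x _ z _ hxz
    exact Int.ofNat_inj.1 (neg_injective hxz)
  · rintro _ ⟨n, hn, rfl⟩
    show lam _ = e
    rw [← hn.2, ← lam_neg]
    congr 1
    ring

theorem not_range_neg {t : K} (hn : t ∉ Set.range (algebraMap ℚ K)) :
    -t ∉ Set.range (algebraMap ℚ K) := by
  rintro ⟨s, hs⟩
  exact hn ⟨-s, by rw [map_neg, hs, neg_neg]⟩

/-- at most two rays -/
theorem rays (hK : Module.finrank ℚ K = 3) : ∃ θ₁ θ₂ : K, ∀ (t : K) (k : ℤ),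
    t ∉ Set.range (algebraMap ℚ K) → (k = 1 ∨ k = -1) → Bad t k →
      ∃ r s : ℚ, 0 < r ∧ (t = algebraMap ℚ K s + algebraMap ℚ K r * θ₁ ∨
        t = algebraMap ℚ K s + algebraMap ℚ K r * θ₂) := by
  classical
  have hfin : Module.Finite ℚ K := Module.finite_of_finrank_pos (by rw [hK]; norm_num)
  let B : Module.Basis (Fin 3) ℚ K := Module.finBasisOfFinrankEq ℚ K hK
  have pos : ∃ θ : K, ∀ (t : K) (k : ℤ), t ∉ Set.range (algebraMap ℚ K) → (k = 1 ∨ k = -1) →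
      Bad t k → 0 < D B t → ∃ r s : ℚ, 0 < r ∧ t = algebraMap ℚ K s + algebraMap ℚ K r * θ := by
    by_cases h : ∃ (t : K) (k : ℤ), t ∉ Set.range (algebraMap ℚ K) ∧ (k = 1 ∨ k = -1) ∧
      Bad t k ∧ 0 < D B t
    · obtain ⟨t0, k0, a1, a2, a3, a4⟩ := h
      exact ⟨t0, fun t k b1 b2 b3 b4 => same_ray hK B a1 a3 b3 a2 b2 (mul_pos a4 b4)⟩
    · exact ⟨0, fun t k b1 b2 b3 b4 => absurd ⟨t, k, b1, b2, b3, b4⟩ h⟩
  have neg : ∃ θ : K, ∀ (t : K) (k : ℤ), t ∉ Set.range (algebraMap ℚ K) → (k = 1 ∨ k = -1) →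
      Bad t k → D B t < 0 → ∃ r s : ℚ, 0 < r ∧ t = algebraMap ℚ K s + algebraMap ℚ K r * θ := by
    by_cases h : ∃ (t : K) (k : ℤ), t ∉ Set.range (algebraMap ℚ K) ∧ (k = 1 ∨ k = -1) ∧
      Bad t k ∧ D B t < 0
    · obtain ⟨t0, k0, a1, a2, a3, a4⟩ := h
      exact ⟨t0, fun t k b1 b2 b3 b4 => same_ray hK B a1 a3 b3 a2 b2 (mul_pos_of_neg_of_neg a4 b4)⟩
    · exact ⟨0, fun t k b1 b2 b3 b4 => absurd ⟨t, k, b1, b2, b3, b4⟩ h⟩
  obtain ⟨θ₁, h1⟩ := pos
  obtain ⟨θ₂, h2⟩ := neg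
  refine ⟨θ₁, θ₂, fun t k b1 b2 b3 => ?_⟩
  rcases lt_or_gt_of_ne (D_ne hK B b1) with h | h
  · obtain ⟨r, s, e1, e2⟩ := h2 t k b1 b2 b3 h
    exact ⟨r, s, e1, Or.inr e2⟩
  · obtain ⟨r, s, e1, e2⟩ := h1 t k b1 b2 b3 h
    exact ⟨r, s, e1, Or.inl e2⟩

theorem D_neg (B : Module.Basis (Fin 3) ℚ K) (t : K) : D B (-t) = - D B t := by
  have h := D_affine B t (-1) 0
  rw [map_zero, zero_add, map_neg, map_one, neg_one_mul] at h
  rw [h]
  ring

/-- at most one line, two-sided -/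
theorem line (hK : Module.finrank ℚ K = 3) : ∃ θ₀ : K, ∀ (t : K) (k k' : ℤ),
    t ∉ Set.range (algebraMap ℚ K) → (k = 1 ∨ k = -1) → (k' = 1 ∨ k' = -1) → Bad t k →
      Bad (-t) k' → ∃ r s : ℚ, t = algebraMap ℚ K s + algebraMap ℚ K r * θ₀ := by
  classical
  have hfin : Module.Finite ℚ K := Module.finite_of_finrank_pos (by rw [hK]; norm_num)
  let B : Module.Basis (Fin 3) ℚ K := Module.finBasisOfFinrankEq ℚ K hK
  by_cases h : ∃ (t : K) (k : ℤ), t ∉ Set.range (algebraMap ℚ K) ∧ (k = 1 ∨ k = -1) ∧ Bad t k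
  · obtain ⟨t0, k0, a1, a2, a3⟩ := h
    refine ⟨t0, fun t k k' b1 b2 b2' b3 b3' => ?_⟩
    have e1 := D_ne hK B a1
    have e2 := D_ne hK B b1
    rcases lt_or_gt_of_ne (mul_ne_zero e1 e2) with h | h
    · obtain ⟨r, s, _, f⟩ := same_ray hK B a1 a3 b3' a2 b2' (by rw [D_neg]; linarith)
      refine ⟨-r, -s, ?_⟩
      rw [map_neg, map_neg]
      linear_combination -f
    · obtain ⟨r, s, _, f⟩ := same_ray hK B a1 a3 b3 a2 b2 h
      exact ⟨r, s, f⟩
  · exact ⟨0, fun t k k' b1 b2 _ b3 _ => absurd ⟨t, k, b1, b2, b3⟩ h⟩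

/-- The property does not change under automorphisms. -/
theorem Bad.aut {t : K} {k : ℤ} (h : Bad t k) (σ : K ≃ₐ[ℚ] K) : Bad (σ t) k := by
  intro Q hQ
  obtain ⟨R, hR⟩ := h Q hQ
  refine ⟨R, fun s hs h1 => ?_⟩
  rw [← hR s hs h1]
  unfold L
  congr 1
  have h2 : algebraMap ℚ K s - σ t = σ (algebraMap ℚ K s - t) := by
    rw [map_sub, AlgEquiv.commutes]
  rw [h2]
  exact Algebra.norm_eq_of_algEquiv σ _

/-- no exceptions in Galois fields -/
theorem galois (hK : Module.finrank ℚ K = 3) [IsGalois ℚ K] (t : K) (k : ℤ)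
    (hn : t ∉ Set.range (algebraMap ℚ K)) (hk : k = 1 ∨ k = -1) : ¬ Bad t k := by
  classical
  intro hb
  have hfin : Module.Finite ℚ K := Module.finite_of_finrank_pos (by rw [hK]; norm_num)
  let B : Module.Basis (Fin 3) ℚ K := Module.finBasisOfFinrankEq ℚ K hK
  have hcard : Nat.card (K ≃ₐ[ℚ] K) = 3 := by
    rw [← hK]
    exact IsGalois.card_aut_eq_finrank ℚ K
  have hpr : Fact (Nat.Prime 3) := ⟨Nat.prime_three⟩
  -- a nontrivial automorphism does not map a generator to its ray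
  have key : ∀ (τ : K ≃ₐ[ℚ] K) (x : K), τ ≠ 1 → x ∉ Set.range (algebraMap ℚ K) →
      ∀ r s : ℚ, 0 < r → τ x ≠ algebraMap ℚ K s + algebraMap ℚ K r * x := by
    intro τ x hτ hx r s hr h
    have ho : orderOf τ = 3 := by
      have h1 : orderOf τ ∣ 3 := by
        rw [← hcard]
        exact orderOf_dvd_natCard τ
      rcases (Nat.dvd_prime Nat.prime_three).1 h1 with h2 | h2
      · exact absurd (orderOf_eq_one_iff.1 h2) hτ
      · exact h2
    have h3 : τ (τ (τ x)) = x := by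
      have : τ ^ 3 = 1 := by rw [← ho]; exact pow_orderOf_eq_one τ
      have h4 := congrArg (fun ρ : K ≃ₐ[ℚ] K => ρ x) this
      simpa [pow_succ, pow_zero] using h4
    have h5 : τ (τ (τ x)) = algebraMap ℚ K (s * (1 + r + r ^ 2)) + algebraMap ℚ K (r ^ 3) * x := by
      rw [h, map_add, map_mul, AlgEquiv.commutes, AlgEquiv.commutes, h, map_add, map_mul, map_add,
        map_mul, AlgEquiv.commutes, AlgEquiv.commutes, h]
      simp only [map_mul, map_add, map_pow, map_one]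
      ring
    have hr1 : r ^ 3 = 1 := by
      by_contra hne
      have hne' : 1 - r ^ 3 ≠ 0 := sub_ne_zero.2 (Ne.symm hne)
      apply hx
      refine ⟨s * (1 + r + r ^ 2) / (1 - r ^ 3), ?_⟩
      rw [map_div₀, div_eq_iff ((map_ne_zero _).2 hne'), map_sub, map_one]
      rw [h3] at h5
      linear_combination -h5
    have hr2 : r = 1 := by
      have h6 : (r - 1) * (r ^ 2 + r + 1) = 0 := by linear_combination hr1
      rcases mul_eq_zero.1 h6 with h7 | h7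
      · linarith
      · nlinarith [sq_nonneg r]
    have hs : s = 0 := by
      rw [h3, hr1, map_one, one_mul, hr2] at h5
      have h8 : algebraMap ℚ K (s * (1 + 1 + 1 ^ 2)) = 0 := by linear_combination -h5
      have h9 := (map_eq_zero (algebraMap ℚ K)).1 h8
      linarith
    rw [hr2, hs, map_zero, map_one, zero_add, one_mul] at h
    apply hx
    rw [IsGalois.mem_range_algebraMap_iff_fixed]
    intro ρ
    have hmem : ρ ∈ Subgroup.zpowers τ := by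
      have h10 : Subgroup.zpowers τ = ⊤ := by
        apply Subgroup.eq_top_of_card_eq
        rw [Nat.card_zpowers, ho, hcard]
      rw [h10]
      exact Subgroup.mem_top ρ
    have hfix : τ ∈ MulAction.stabilizer (K ≃ₐ[ℚ] K) x := by
      rw [MulAction.mem_stabilizer_iff]
      exact h
    have hle : Subgroup.zpowers τ ≤ MulAction.stabilizer (K ≃ₐ[ℚ] K) x :=
      (Subgroup.zpowers_le).2 hfix
    exact (MulAction.mem_stabilizer_iff).1 (hle hmem)
  obtain ⟨σ, hσ⟩ : ∃ σ : K ≃ₐ[ℚ] K, σ ≠ 1 := by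
    by_contra hcon
    push Not at hcon
    have : Nat.card (K ≃ₐ[ℚ] K) = 1 := by
      rw [Nat.card_eq_one_iff_unique]
      exact ⟨⟨fun a b => by rw [hcon a, hcon b]⟩, ⟨1⟩⟩
    omega
  have hσ2 : σ * σ ≠ 1 := by
    intro h
    have h1 : orderOf σ ∣ 3 := by
      rw [← hcard]
      exact orderOf_dvd_natCard σ
    have h2 : orderOf σ ∣ 2 := orderOf_dvd_of_pow_eq_one (by rw [sq]; exact h)
    have h3 : orderOf σ ∣ 1 := by
      have := Nat.dvd_gcd h1 h2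
      simpa using this
    exact hσ (orderOf_eq_one_iff.1 (Nat.dvd_one.1 h3))
  have hn1 : σ t ∉ Set.range (algebraMap ℚ K) := by
    rintro ⟨s, hs⟩
    exact hn ⟨s, by
      have := congrArg σ.symm hs
      rwa [AlgEquiv.commutes, AlgEquiv.symm_apply_apply] at this⟩
  have hb1 := hb.aut σ
  have hb2 := hb1.aut σ
  have hn2 : σ (σ t) ∉ Set.range (algebraMap ℚ K) := by
    rintro ⟨s, hs⟩
    exact hn1 ⟨s, by
      have := congrArg σ.symm hs
      rwa [AlgEquiv.commutes, AlgEquiv.symm_apply_apply] at this⟩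
  have d0 := D_ne hK B hn
  have d1 := D_ne hK B hn1
  have d2 := D_ne hK B hn2
  have c01 : ¬ 0 < D B t * D B (σ t) := by
    intro h
    obtain ⟨r, s, hr, e⟩ := same_ray hK B hn hb hb1 hk hk h
    exact key σ t hσ hn r s hr e
  have c12 : ¬ 0 < D B (σ t) * D B (σ (σ t)) := by
    intro h
    obtain ⟨r, s, hr, e⟩ := same_ray hK B hn1 hb1 hb2 hk hk h
    exact key σ (σ t) hσ hn1 r s hr e
  have c02 : ¬ 0 < D B t * D B (σ (σ t)) := by
    intro h
    obtain ⟨r, s, hr, e⟩ := same_ray hK B hn hb hb2 hk hk h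
    exact key (σ * σ) t hσ2 hn r s hr e
  rcases lt_or_gt_of_ne d0 with h0 | h0 <;> rcases lt_or_gt_of_ne d1 with h1 | h1 <;>
    rcases lt_or_gt_of_ne d2 with h2 | h2
  · exact c01 (mul_pos_of_neg_of_neg h0 h1)
  · exact c01 (mul_pos_of_neg_of_neg h0 h1)
  · exact c02 (mul_pos_of_neg_of_neg h0 h2)
  · exact c12 (mul_pos h1 h2)
  · exact c12 (mul_pos_of_neg_of_neg h1 h2)
  · exact c02 (mul_pos h0 h2)
  · exact c01 (mul_pos h0 h1)
  · exact c01 (mul_pos h0 h1)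

omit [Algebra ℚ K] in
/-- The equation of `-t`. -/
theorem eq_neg {a b c d : ℤ} {t : K}
    (ht : (a : K) * t ^ 3 + (b : K) * t ^ 2 + (c : K) * t + (d : K) = 0) :
    (a : K) * (-t) ^ 3 + ((-b : ℤ) : K) * (-t) ^ 2 + (c : K) * (-t) + ((-d : ℤ) : K) = 0 := by
  push_cast
  linear_combination -ht

theorem main (hK : Module.finrank ℚ K = 3) :
    (∃ θ₁ θ₂ : K, ∀ (a b c d : ℤ) (t : K), a ≠ 0 →
      (a : K) * t ^ 3 + (b : K) * t ^ 2 + (c : K) * t + (d : K) = 0 →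
      t ∉ Set.range (algebraMap ℚ K) →
      (∃ r s : ℚ, 0 < r ∧ (t = algebraMap ℚ K s + algebraMap ℚ K r * θ₁ ∨
        t = algebraMap ℚ K s + algebraMap ℚ K r * θ₂)) ∨ Good a b c d) ∧
    (∃ θ₀ : K, ∀ (a b c d : ℤ) (t : K), a ≠ 0 →
      (a : K) * t ^ 3 + (b : K) * t ^ 2 + (c : K) * t + (d : K) = 0 →
      t ∉ Set.range (algebraMap ℚ K) →
      (∃ r s : ℚ, t = algebraMap ℚ K s + algebraMap ℚ K r * θ₀) ∨ GoodZ a b c d) ∧
    (IsGalois ℚ K → ∀ (a b c d : ℤ) (t : K), a ≠ 0 →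
      (a : K) * t ^ 3 + (b : K) * t ^ 2 + (c : K) * t + (d : K) = 0 →
      t ∉ Set.range (algebraMap ℚ K) → Good a b c d) := by
  refine ⟨?_, ?_, ?_⟩
  · obtain ⟨θ₁, θ₂, h⟩ := rays hK
    refine ⟨θ₁, θ₂, fun a b c d t ha ht hn => ?_⟩
    by_cases hg : Good a b c d
    · exact Or.inr hg
    · obtain ⟨k, hk, hb⟩ := bad_of_not_good hK ha ht hn hg
      exact Or.inl (h t k hn hk hb)
  · obtain ⟨θ₀, h⟩ := line hK
    refine ⟨θ₀, fun a b c d t ha ht hn => ?_⟩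
    by_cases hg : GoodZ a b c d
    · exact Or.inr hg
    · obtain ⟨k, hk, hb⟩ := bad_of_not_good hK ha ht hn (fun h => hg h.toZ)
      obtain ⟨k', hk', hb'⟩ := bad_of_not_good hK ha (eq_neg ht) (not_range_neg hn)
        (fun h => hg h.toZ_neg)
      exact Or.inl (h t k k' hn hk hk' hb hb')
  · intro hgal a b c d t ha ht hn
    by_contra hg
    obtain ⟨k, hk, hb⟩ := bad_of_not_good hK ha ht hn hg
    exact galois hK t k hn hk hb

end Pool.Agent.Lib.MP_648c71_nt.AB
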