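import Pool.Agent.Lib.MP_648c71_nt.AB.Core

/-!
# Two exceptional generators contradict
-/

set_option autoImplicit false

namespace Pool.Agent.Lib.MP_648c71_nt.AB

open Pool.Agent.Lib.MP_648c71_nt

variable {K : Type} [Field K] [Algebra ℚ K]

theorem per_eps (hK : Module.finrank ℚ K = 3) {t1 t2 : K}
    (hli : ∀ x y z : ℚ, algebraMap ℚ K x + algebraMap ℚ K y * t1 + algebraMap ℚ K z * t2 = 0 →
      x = 0 ∧ y = 0 ∧ z = 0)
    {A0 A1 A2 ε : ℚ} (hε : 0 < ε)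
    (hq2 : (t1 - algebraMap ℚ K ε * t2) ^ 2 =
      algebraMap ℚ K A0 + algebraMap ℚ K A1 * t1 + algebraMap ℚ K A2 * t2)
    (hP : 0 < A2 + ε * A1) {k1 k2 : ℤ} (B1 : Bad t1 k1) (B2 : Bad t2 k2) :
    (t1 - algebraMap ℚ K ε * t2) ∉ Set.range (algebraMap ℚ K) ∧
    Ev (fun s => L (t1 - algebraMap ℚ K ε * t2) (s + (A2 + ε * A1) / ε) =
      lq ε * k1 * k2 * L (t1 - algebraMap ℚ K ε * t2) s) := by
  set q : K := t1 - algebraMap ℚ K ε * t2 with hq
  have hqn : q ∉ Set.range (algebraMap ℚ K) := by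
    rintro ⟨s, hs⟩
    have h := hli (-s) 1 (-ε) (by
      rw [map_neg, map_neg, map_one, hs, hq]
      ring)
    exact one_ne_zero h.2.1
  refine ⟨hqn, ?_⟩
  have hε' : ε ≠ 0 := hε.ne'
  have hεK : algebraMap ℚ K ε * algebraMap ℚ K ε⁻¹ = 1 := by
    rw [← map_mul, mul_inv_cancel₀ hε', map_one]
  have e1 : q ^ 2 = algebraMap ℚ K A0 + algebraMap ℚ K (-A2 / ε) * q +
      algebraMap ℚ K ((A2 + ε * A1) / ε) * t1 := by
    rw [hq2, hq, div_eq_mul_inv, div_eq_mul_inv]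
    simp only [map_mul, map_neg, map_add]
    linear_combination (-(algebraMap ℚ K A2) * t2 - algebraMap ℚ K A1 * t1) * hεK
  have e2 : q ^ 2 = algebraMap ℚ K A0 + algebraMap ℚ K A1 * q +
      algebraMap ℚ K (A2 + ε * A1) * t2 := by
    rw [hq2, hq]
    simp only [map_mul, map_add]
    ring
  have r1 := refl hK (div_pos hP hε) e1 B1
  have r2 := refl hK hP e2 B2
  have h := period hK hqn r1 r2
  have hd : A1 - -A2 / ε = (A2 + ε * A1) / ε := by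
    field_simp
    ring
  rw [hd] at h
  have hη : lq ((A2 + ε * A1) / ε) * k1 * (lq (A2 + ε * A1) * k2) = lq ε * k1 * k2 := by
    rw [div_eq_mul_inv, lq_mul, lq_inv]
    have := lq_sq hP.ne'
    calc lq (A2 + ε * A1) * lq ε * k1 * (lq (A2 + ε * A1) * k2) =
        (lq (A2 + ε * A1) * lq (A2 + ε * A1)) * (lq ε * k1 * k2) := by ring
      _ = _ := by rw [this, one_mul]
  rw [hη] at h
  exact h

theorem two_bad (hK : Module.finrank ℚ K = 3) {t1 t2 : K}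
    (hli : ∀ x y z : ℚ, algebraMap ℚ K x + algebraMap ℚ K y * t1 + algebraMap ℚ K z * t2 = 0 →
      x = 0 ∧ y = 0 ∧ z = 0)
    {a0 a1 a2 b0 b1 b2 c0 c1 c2 : ℚ}
    (h11 : t1 ^ 2 = algebraMap ℚ K a0 + algebraMap ℚ K a1 * t1 + algebraMap ℚ K a2 * t2)
    (h12 : t1 * t2 = algebraMap ℚ K c0 + algebraMap ℚ K c1 * t1 + algebraMap ℚ K c2 * t2)
    (h22 : t2 ^ 2 = algebraMap ℚ K b0 + algebraMap ℚ K b1 * t1 + algebraMap ℚ K b2 * t2)
    (ha : 0 < a2) {k1 k2 : ℤ} (B1 : Bad t1 k1) (B2 : Bad t2 k2) (hk1 : k1 * k1 = 1)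
    (hk2 : k2 * k2 = 1) : False := by
  -- the coefficients of `q ^ 2`, `q = t1 - ε t2`
  set A0 : ℚ → ℚ := fun ε => a0 - 2 * ε * c0 + ε ^ 2 * b0 with hA0
  set A1 : ℚ → ℚ := fun ε => a1 - 2 * ε * c1 + ε ^ 2 * b1 with hA1
  set A2 : ℚ → ℚ := fun ε => a2 - 2 * ε * c2 + ε ^ 2 * b2 with hA2
  have hq2 : ∀ ε : ℚ, (t1 - algebraMap ℚ K ε * t2) ^ 2 =
      algebraMap ℚ K (A0 ε) + algebraMap ℚ K (A1 ε) * t1 + algebraMap ℚ K (A2 ε) * t2 := by
    intro ε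
    simp only [hA0, hA1, hA2, map_add, map_sub, map_mul, map_pow, map_ofNat]
    linear_combination h11 - 2 * algebraMap ℚ K ε * h12 + (algebraMap ℚ K ε) ^ 2 * h22
  -- the quasi-period is trivial
  have key : ∀ ε ε' : ℚ, 0 < ε → 0 < ε' → ε ≠ ε' → 0 < A2 ε + ε * A1 ε →
      0 < A2 ε' + ε' * A1 ε' → lq ε * k1 * k2 = 1 := by
    intro ε ε' hε hε' hne hP hP'
    obtain ⟨hqn, Hq⟩ := per_eps hK hli hε (hq2 ε) hP B1 B2
    obtain ⟨hrn, Hr⟩ := per_eps hK hli hε' (hq2 ε') hP' B1 B2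
    have hsub : ε' - ε ≠ 0 := sub_ne_zero.2 (Ne.symm hne)
    have hrel : (t1 - algebraMap ℚ K ε' * t2) ^ 2 = algebraMap ℚ K (A0 ε') +
        algebraMap ℚ K (-(ε * A1 ε' + A2 ε') / (ε' - ε)) * (t1 - algebraMap ℚ K ε' * t2) +
        algebraMap ℚ K ((A2 ε' + ε' * A1 ε') / (ε' - ε)) * (t1 - algebraMap ℚ K ε * t2) := by
      have hi : algebraMap ℚ K (ε' - ε) * algebraMap ℚ K (ε' - ε)⁻¹ = 1 := by
        rw [← map_mul, mul_inv_cancel₀ hsub, map_one]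
      rw [map_sub] at hi
      rw [hq2 ε', div_eq_mul_inv, div_eq_mul_inv]
      simp only [map_mul, map_neg, map_add]
      linear_combination (-(algebraMap ℚ K (A1 ε')) * t1 - algebraMap ℚ K (A2 ε') * t2) * hi
    refine eta_one hK hqn (div_ne_zero hP'.ne' hsub) (div_ne_zero hP'.ne' hε'.ne')
      (div_ne_zero hP.ne' hε.ne') hrel ?_ Hr Hq
    have := lq_sq hε.ne'
    calc lq ε * k1 * k2 * (lq ε * k1 * k2) = (lq ε * lq ε) * (k1 * k1) * (k2 * k2) := by ring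
      _ = 1 := by rw [this, hk1, hk2]; norm_num
  -- small `ε`
  set S : ℚ := |a1 - 2 * c2| + |b2 - 2 * c1| + |b1| + 1 with hS
  have hS0 : 0 < S := by positivity
  have hsmall : ∀ ε : ℚ, 0 < ε → ε ≤ 1 → ε * S < a2 → 0 < A2 ε + ε * A1 ε := by
    intro ε h0 h1 h2
    have e1 : A2 ε + ε * A1 ε = a2 + ε * (a1 - 2 * c2) + ε ^ 2 * (b2 - 2 * c1) + ε ^ 3 * b1 := by
      simp only [hA1, hA2]
      ring
    have e2 : ε ^ 2 ≤ ε := by nlinarith
    have e3 : ε ^ 3 ≤ ε := by nlinarith [mul_pos h0 h0]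
    have f1 : -(ε * |a1 - 2 * c2|) ≤ ε * (a1 - 2 * c2) := by
      have := neg_abs_le (a1 - 2 * c2)
      nlinarith
    have f2 : -(ε * |b2 - 2 * c1|) ≤ ε ^ 2 * (b2 - 2 * c1) := by
      have g1 := neg_abs_le (b2 - 2 * c1)
      have g2 := abs_nonneg (b2 - 2 * c1)
      nlinarith [sq_nonneg ε]
    have f3 : -(ε * |b1|) ≤ ε ^ 3 * b1 := by
      have g1 := neg_abs_le b1
      have g2 := abs_nonneg b1
      have g3 : 0 < ε ^ 3 := by positivity
      nlinarith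
    rw [e1]
    rw [hS] at h2
    nlinarith
  -- contradiction
  obtain ⟨ε, hε0, hε1, hε2⟩ : ∃ ε : ℚ, 0 < ε ∧ 2 * ε ≤ 1 ∧ 2 * ε * S < a2 := by
    refine ⟨min (1 / 2) (a2 / (4 * S)), by positivity, ?_, ?_⟩
    · have := min_le_left (1 / 2 : ℚ) (a2 / (4 * S))
      linarith
    · have h1 := min_le_right (1 / 2 : ℚ) (a2 / (4 * S))
      have h2 : a2 / (4 * S) * S = a2 / 4 := by field_simp
      have h3 : min (1 / 2) (a2 / (4 * S)) * S ≤ a2 / 4 := by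
        rw [← h2]
        exact mul_le_mul_of_nonneg_right h1 hS0.le
      linarith
  have p1 := hsmall ε hε0 (by linarith) (by nlinarith)
  have p2 := hsmall (2 * ε) (by linarith) hε1 hε2
  have k3 := key ε (2 * ε) hε0 (by linarith) (by intro h; linarith) p1 p2
  have k4 := key (2 * ε) ε (by linarith) hε0 (by intro h; linarith) p2 p1
  rw [lq_mul, lq_two] at k4
  have : (1 : ℤ) = -1 := by
    calc (1 : ℤ) = -1 * lq ε * k1 * k2 := k4.symm
      _ = -(lq ε * k1 * k2) := by ring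
      _ = -1 := by rw [k3]
  norm_num at this

end Pool.Agent.Lib.MP_648c71_nt.AB
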